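import Pool.Agent.Helper99.ZZ.Zig

/-!
# Packet ZZ STEPS: the leg of the zigzag which contains an ascent
-/

open Finset
open Pool.Agent.Helper98.Saw hiding iv hh
open Pool.Agent.Helper92.Eps
open Pool.Agent.Helper22.SB (PathOn Cnt seg)
open Pool.Agent.Helper22.FP (nrm rb1 rbl Cor)

namespace Pool.Agent.Helper7.ZZ

open Pool.Agent.Helper99.ZZ

lemma sn_cases (a i : ℕ) : sn a i = 1 ∨ sn a i = -1 := by
  unfold sn
  exact neg_one_pow_eq_or ℤ (i + a)

lemma sn_succ (a i : ℕ) : sn a (i + 1) = - sn a i := by
  unfold sn
  rw [show i + 1 + a = (i + a) + 1 by ring, pow_succ]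
  ring

/-- The position of a time among the points of the decomposition. -/
lemma locate (z : ℕ → ℕ) (K T : ℕ) :
    T < z 0 ∨ z K ≤ T ∨ ∃ i < K, z i ≤ T ∧ T < z (i + 1) := by
  induction K with
  | zero => omega
  | succ K ih =>
    rcases ih with h | h | ⟨i, hi, h1, h2⟩
    · exact Or.inl h
    · by_cases h3 : T < z (K + 1)
      · exact Or.inr (Or.inr ⟨K, by omega, h, h3⟩)
      · exact Or.inr (Or.inl (by omega))
    · exact Or.inr (Or.inr ⟨i, by omega, h1, h2⟩)

/-- The first half: the up leg `j` as seen from `T`. -/
lemma core1 {h : ℕ → ℤ} {n : ℕ} {t : ℤ} {a K : ℕ} {z : ℕ → ℕ}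
    (Z : ZD h n t a K z) {T T' : ℕ} (h1 : T < T') (h2 : T' ≤ n) (h3 : h T + t ≤ h T')
    (h4 : ∀ s s', T ≤ s → s ≤ s' → s' ≤ T' → h s - h s' < t) :
    ∃ j < K, sn a j = 1 ∧ h (z j) ≤ h T ∧ T < z (j + 1) ∧ z j < T' ∧
      (∀ s, T ≤ s → s < z j → h s < h T + t) ∧ (∀ s, z j ≤ s → s < T → h s < h T + t) := by
  have hpos := Z.pos
  rcases locate z K T with hT | hT | ⟨i, hi, hT, hT2⟩
  · -- `T` before the first leg
    have pT := Z.pre T (by omega)
    have up0 := Z.up 0 (by omega)
    rcases sn_cases a 0 with hs | hs
    · have hz : z 0 < T' := by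
        by_contra hcon
        have pT' := Z.pre T' (by omega)
        simp only [hs] at pT pT'
        omega
      refine ⟨0, by omega, hs, ?_, ?_, hz, ?_, ?_⟩
      · simp only [hs] at pT
        omega
      · have := up0.lt
        omega
      · intro s hs1 hs2
        have ps := Z.pre s (by omega)
        simp only [hs] at pT ps
        omega
      · intro s hs1 hs2
        omega
    · exfalso
      simp only [hs] at pT
      have hz : z 0 < T' := by
        by_contra hcon
        have pT' := Z.pre T' (by omega)
        simp only [hs] at pT'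
        omega
      rcases lt_or_ge T' (z 1) with h5 | h5
      · have := up0.lo T' hz (by simpa using h5.le)
        simp only [hs] at this
        omega
      · have h6 := h4 (z 0) (z 1) (by omega) (by simpa using up0.lt.le) h5
        have h7 := up0.ht
        simp only [hs, zero_add] at h7
        omega
  · -- `T` after the last leg
    exfalso
    have pT := Z.post T hT (by omega)
    have pT' := Z.post T' (by omega) h2
    rcases sn_cases a (K - 1) with hs | hs
    · simp only [hs] at pT pT'
      omega
    · simp only [hs] at pT pT'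
      omega
  · -- `T` in the leg `i`
    have upi := Z.up i hi
    rcases sn_cases a i with hs | hs
    · refine ⟨i, hi, hs, ?_, hT2, by omega, fun s hs1 hs2 => by omega, ?_⟩
      · rcases Nat.lt_or_ge (z i) T with h5 | h5
        · have := upi.lo T h5 hT2.le
          simp only [hs] at this
          omega
        · have : T = z i := by omega
          rw [this]
      · intro s hs1 hs2
        have := upi.bt s T hs1 hs2.le hT2.le
        simp only [hs] at this
        omega
    · have hz : z (i + 1) < T' := by
        by_contra hcon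
        have := upi.bt T T' hT h1.le (by omega)
        simp only [hs] at this
        omega
      have hTz : h (z (i + 1)) ≤ h T := by
        have := upi.hi T hT hT2.le
        simp only [hs] at this
        omega
      have hi1 : i + 1 < K := by
        by_contra hcon
        have hK : K = i + 1 := by omega
        have pT' := Z.post T' (by rw [hK]; omega) h2
        have hs' : sn a (K - 1) = -1 := by
          rw [show K - 1 = i by omega]
          exact hs
        simp only [hs'] at pT'
        rw [hK] at pT'
        omega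
      have upj := Z.up (i + 1) hi1
      refine ⟨i + 1, hi1, by rw [sn_succ, hs]; norm_num, hTz, ?_, hz, ?_, fun s hs1 hs2 => by omega⟩
      · have := upj.lt
        omega
      · intro s hs1 hs2
        have := upi.bt T s hT hs1 hs2.le
        simp only [hs] at this
        omega

/-- Both halves. -/
lemma core {h : ℕ → ℤ} {n : ℕ} {t : ℤ} {a K : ℕ} {z : ℕ → ℕ}
    (Z : ZD h n t a K z) {T T' : ℕ} (h1 : T < T') (h2 : T' ≤ n) (h3 : h T + t ≤ h T')
    (h4 : ∀ s s', T ≤ s → s ≤ s' → s' ≤ T' → h s - h s' < t) :
    ∃ j < K, sn a j = 1 ∧ z j < z (j + 1) ∧ h (z j) ≤ h T ∧ h T' ≤ h (z (j + 1)) ∧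
      (∀ s, T ≤ s → s < z j → h s < h T + t) ∧ (∀ s, z j ≤ s → s < T → h s < h T + t) ∧
      (∀ s, z (j + 1) < s → s ≤ T' → h T' < h s + t) ∧
      (∀ s, s ≤ z (j + 1) → T' < s → h T' < h s + t) := by
  obtain ⟨j, hj, hs, a1, a2, a3, a4, a5⟩ := core1 Z h1 h2 h3 h4
  have upj := Z.up j hj
  rcases Nat.lt_or_ge (z (j + 1)) T' with h5 | h5
  · rcases Nat.lt_or_ge (j + 1) K with h6 | h6
    · have upk := Z.up (j + 1) h6
      have hs' : sn a (j + 1) = -1 := by rw [sn_succ, hs]
      have h7 : T' < z (j + 1 + 1) := by
        by_contra hcon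
        have h8 := h4 (z (j + 1)) (z (j + 1 + 1)) a2.le upk.lt.le (by omega)
        have h9 := upk.ht
        simp only [hs'] at h9
        omega
      refine ⟨j, hj, hs, upj.lt, a1, ?_, a4, a5, ?_, fun s b1 b2 => by omega⟩
      · have := upk.lo T' h5 h7.le
        simp only [hs'] at this
        omega
      · intro s b1 b2
        have := upk.bt s T' b1.le b2 h7.le
        simp only [hs'] at this
        omega
    · have hK : K = j + 1 := by omega
      have hs' : sn a (K - 1) = 1 := by
        rw [show K - 1 = j by omega]
        exact hs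
      have pT' := Z.post T' (by rw [hK]; omega) h2
      simp only [hs'] at pT'
      rw [hK] at pT'
      refine ⟨j, hj, hs, upj.lt, a1, by omega, a4, a5, ?_, fun s b1 b2 => by omega⟩
      intro s b1 b2
      have ps := Z.post s (by rw [hK]; omega) (by omega)
      simp only [hs'] at ps
      rw [hK] at ps
      omega
  · refine ⟨j, hj, hs, upj.lt, a1, ?_, a4, a5, fun s b1 b2 => by omega, ?_⟩
    · have := upj.hi T' a3.le h5
      simp only [hs] at this
      omega
    · intro s b1 b2
      have := upj.bt T' s a3.le b2.le b1
      simp only [hs] at this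
      omega

lemma adj_row {x y : V} (h : Adj x y) : x 2 ≤ y 2 + 1 ∧ y 2 ≤ x 2 + 1 := by
  rcases h with ⟨-, i, rfl⟩ | ⟨-, i, rfl⟩ <;> fin_cases i <;> simp [e] <;> omega

theorem STEPS : STEPS_stmt := by
  intro γ n t a K z up τ hP ht G hC T T' h1 h2 h3 h4
  obtain ⟨hadj, hhex, -⟩ := hP
  have hsg : ∀ u, u ≤ n → 0 ≤ sg (γ u) ∧ sg (γ u) ≤ 1 := by
    intro u hu
    rcases hhex u (Nat.zero_le _) hu with h | h <;> omega
  have b1 : hh (γ T) + (3 * t - 1) ≤ hh (γ T') := by
    unfold hh
    have := hsg T (by omega)
    have := hsg T' h2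
    omega
  rcases hC with ⟨hK, hno⟩ | ⟨Z, hdir, hmid, h0, hlast⟩
  · exfalso
    have := hno T' T h2 (by omega)
    omega
  obtain ⟨j, hj, hs, c0, c1, c2, c3, c4, c5, c6⟩ := core (h := fun u => hh (γ u)) Z h1 h2
    b1 (by
      intro s s' d1 d2 d3
      have e1 := h4 s s' d1 d2 d3
      have := hsg s (by omega)
      have := hsg s' (by omega)
      simp only [hh]
      omega)
  have hzK : ∀ i, i ≤ K → z i ≤ n := by
    have hmono : ∀ i, i ≤ K → ∀ d, K = i + d → z i ≤ z K := by
      intro i hi d
      induction d generalizing i with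
      | zero => intro hd; rw [hd]; simp
      | succ d ih =>
        intro hd
        have := (Z.up i (by omega)).lt
        have := ih (i + 1) (by omega) (by omega)
        omega
    intro i hi
    have := hmono i hi (K - i) (by omega)
    have := Z.le
    omega
  have hτj : τ j = z j ∨ (z j = 0 ∧ τ j = 1) := by
    rcases Nat.eq_zero_or_pos j with h | h
    · rw [h]; exact h0
    · exact Or.inl (hmid j h hj)
  have hτk : τ (j + 1) = z (j + 1) ∨ (z (j + 1) = n ∧ τ (j + 1) = n - 1) := by
    rcases Nat.lt_or_ge (j + 1) K with h | h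
    · exact Or.inl (hmid (j + 1) (by omega) h)
    · have : j + 1 = K := by omega
      rw [this]
      exact hlast
  have hzj := hzK j hj.le
  have hzk := hzK (j + 1) hj
  have sT := hsg T (by omega)
  have sT' := hsg T' h2
  have lowB : ∀ s, s ≤ n → hh (γ s) < hh (γ T) + (3 * t - 1) → (γ s) 2 < (γ T) 2 + t := by
    intro s hsn hlt
    have := hsg s hsn
    unfold hh at hlt
    omega
  have highB : ∀ s, s ≤ n → hh (γ T') < hh (γ s) + (3 * t - 1) → (γ T') 2 < (γ s) 2 + t := by
    intro s hsn hlt
    have := hsg s hsn
    unfold hh at hlt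
    omega
  refine ⟨j, hj, ?_, ?_, ?_, ?_, ?_⟩
  · rw [hdir j hj, hs]
    simp
  · have szj := hsg (z j) hzj
    simp only [hh] at c1
    rcases hτj with h | ⟨h, h'⟩
    · rw [h]
      omega
    · have had := adj_row (hadj 0 (le_refl _) (by omega))
      rw [h] at c1 szj
      rw [h']
      simp only [zero_add] at had
      omega
  · have szk := hsg (z (j + 1)) hzk
    simp only [hh] at c2
    rcases hτk with h | ⟨h, h'⟩
    · rw [h]
      omega
    · have had := adj_row (hadj (n - 1) (Nat.zero_le _) (by omega))
      rw [h] at c2 szk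
      rw [h']
      rw [show n - 1 + 1 = n by omega] at had
      omega
  · intro s d1 d2 d3 d4
    constructor
    · by_contra hcon
      rcases Nat.lt_or_ge s (z j) with h | h
      · have := lowB s (by omega) (c3 s d1 h)
        omega
      · rcases hτj with h' | ⟨h', h''⟩
        · omega
        · have : s = T := by omega
          rw [this] at d3
          omega
    · by_contra hcon
      rcases Nat.lt_or_ge (z (j + 1)) s with h | h
      · have := highB s (by omega) (c5 s h d2)
        omega
      · rcases hτk with h' | ⟨h', h''⟩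
        · omega
        · have : s = T' := by omega
          rw [this] at d4
          omega
  · intro s d1 d2 d3 d4
    have e1 : z j ≤ s := by omega
    have e2 : s ≤ z (j + 1) := by omega
    constructor
    · by_contra hcon
      have := lowB s (by omega) (c4 s e1 (by omega))
      omega
    · by_contra hcon
      have := highB s (by omega) (c6 s e2 (by omega))
      omega

end Pool.Agent.Helper7.ZZ
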